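import Pool.Agent.H.MP_f24657.B

set_option autoImplicit false

namespace Pool.Agent.Results.MP_f24657_an.Bump

theorem result :
    ∀ (I : Type) [LinearOrder I] [WellFoundedLT I] [OrderTop I] [TopologicalSpace I]
      [OrderTopology I], Ordinal.type (α := I) (· < ·) = Ordinal.omega 1 + 1 →
    ∀ V : (I → ℝ) → Set ℝ,
      V = (fun f => {s : ℝ | ∃ n : ℕ, ∃ α : Fin (n + 1) → I, StrictMono α ∧
        s = ∑ i : Fin n, (f (α i.succ) - f (α i.castSucc)) ^ 2}) →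
    ∀ (X : Type) [NormedAddCommGroup X] [NormedSpace ℝ X] (T : X →ₗ[ℝ] (I → ℝ)),
      Function.Injective T →
      (∀ f, (∃ x, T x = f) ↔ Continuous f ∧ f ⊤ = 0 ∧ BddAbove (V f)) →
      (∀ x, ‖x‖ = Real.sqrt (sSup (V (T x)))) →
      ∃ b : X → ℝ, ContDiff ℝ 1 b ∧ (∃ K, LipschitzWith K b) ∧ (∃ x, b x ≠ 0) ∧
        Bornology.IsBounded (Function.support b) := by
  rintro I _ _ _ _ _ hI _ rfl X _ _ T h1 h2 h3
  refine (H.MP_f24657.IsJ.frag ⟨h1, h2, h3⟩ fun a ha => ?_).bump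
  have e1 := (Ordinal.typein_lt_typein (α := I) (· < ·)).2 ha
  have e2 := Ordinal.typein_lt_type (α := I) (· < ·) ⊤
  rw [hI, Order.lt_add_one_iff] at e2
  rw [← Set.Iio_insert]
  exact ((Cardinal.countable_iff_lt_aleph_one (Set.Iio a)).2
    (Cardinal.lt_omega_iff_card_lt.1 (e1.trans_le e2))).insert a

end Pool.Agent.Results.MP_f24657_an.Bump
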